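import Pool.Agent.Q43.RE.Main

/-!
# Representation embeddings of comodule categories (MP_d87944_al, Q1)

Definitions (file `Pool/Agent/Q43/RE/Defs.lean`), over a field `K`:

* `Comod K C`: the category of all left comodules over the coalgebra `C` (vector spaces of any
  dimension with a coassociative and counital coaction), with its `K`-linear structure;
* `RMod W = ModuleCat Wᵐᵒᵖ`: all right `W`-modules; `FDMod K A`: the right `A`-modules that are
  finite-dimensional over `K`;
* `FullyWild K W`: there is a full, faithful, exact, `K`-linear functor from the finite-dimensional
  right modules over the free algebra in two variables to the finite-dimensional right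
  `W`-modules. A functor is exact if it carries exact sequences `X ⟶ Y ⟶ Z` to exact sequences
  (exactness is that of the underlying linear maps);
* `Indec X`: `X` is not zero and not a direct sum of two nonzero objects;
* `IsRepEmbedding K F`: `F` is `K`-linear and exact, carries indecomposable objects to
  indecomposable objects, and reflects isomorphism classes.
-/

set_option autoImplicit false

namespace Pool.Agent.Results.MP_d87944_al.ComoduleEmbedding

open CategoryTheory Q43.RE

universe u

/-- The answer to Q1 is yes, for all coalgebras of any dimension over any field: if `W` is a fully
wild algebra, there is a representation embedding of the category of all left `C`-comodules into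
the category of all right `W`-modules. It can even be chosen full and faithful. -/
theorem result (K : Type u) [Field K] (C : Type u) [AddCommGroup C] [Module K C]
    [Coalgebra K C] (W : Type u) [Ring W] [Algebra K W] (hW : FullyWild K W) :
    ∃ F : Comod K C ⥤ RMod W, IsRepEmbedding K F ∧ F.Full ∧ F.Faithful :=
  exists_repEmbedding K C W hW

end Pool.Agent.Results.MP_d87944_al.ComoduleEmbedding
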